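import Pool.Agent.H715.TW.Stm

/-!
# Alternating sums over subsets (project TW, tasks SUM3 and SUM2)
-/

namespace Pool.Agent.H177.TW

open Pool.Agent.H715.TW

/-- the signed sum of `f (k * ∏ U)` over the subsets `U` of `S` -/
def asum (p : ℕ) (f : ℕ → ZMod p) (S : Finset ℕ) (k : ℕ) : ZMod p :=
  ∑ U ∈ S.powerset, (-1) ^ (S.card - U.card) * f (k * ∏ q ∈ U, q)

theorem asum_empty (p : ℕ) (f : ℕ → ZMod p) (k : ℕ) : asum p f ∅ k = f k := by
  simp [asum]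

theorem asum_insert (p : ℕ) (f : ℕ → ZMod p) (S : Finset ℕ) (q : ℕ) (hq : q ∉ S) (k : ℕ) :
    asum p f (insert q S) k = asum p f S (k * q) - asum p f S k := by
  unfold asum
  rw [Finset.sum_powerset_insert hq, Finset.card_insert_of_notMem hq]
  have h1 : ∑ U ∈ S.powerset, (-1 : ZMod p) ^ (S.card + 1 - U.card) * f (k * ∏ x ∈ U, x)
      = - ∑ U ∈ S.powerset, (-1 : ZMod p) ^ (S.card - U.card) * f (k * ∏ x ∈ U, x) := by
    rw [← Finset.sum_neg_distrib]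
    refine Finset.sum_congr rfl fun U hU => ?_
    have hc : U.card ≤ S.card := Finset.card_le_card (Finset.mem_powerset.mp hU)
    have : S.card + 1 - U.card = (S.card - U.card) + 1 := by omega
    rw [this, pow_succ]
    ring
  have h2 : ∑ U ∈ S.powerset, (-1 : ZMod p) ^ (S.card + 1 - (insert q U).card) *
        f (k * ∏ x ∈ insert q U, x)
      = ∑ U ∈ S.powerset, (-1 : ZMod p) ^ (S.card - U.card) * f (k * q * ∏ x ∈ U, x) := by
    refine Finset.sum_congr rfl fun U hU => ?_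
    have hqU : q ∉ U := fun h => hq (Finset.mem_powerset.mp hU h)
    rw [Finset.card_insert_of_notMem hqU, Finset.prod_insert hqU, Nat.add_sub_add_right,
      mul_assoc]
  rw [h1, h2]
  ring

/-! ### SUM3 -/

/-- the values of `prw 3 wt3 (7 j)` -/
def g3 (n : ℕ) : ZMod 3 := if n % 8 = 1 ∨ n % 8 = 7 then 1 else 0

/-- the values of the signed sum -/
def b3 (n : ℕ) : ZMod 3 := if n % 8 = 1 ∨ n % 8 = 7 then -1 else 1

theorem step3a : ∀ a < 8, ∀ b < 8, (a = 3 ∨ a = 5) → b % 2 = 1 →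
    g3 (b * a) - g3 b = b3 b := by decide

theorem step3b : ∀ a < 8, ∀ b < 8, (a = 3 ∨ a = 5) → b % 2 = 1 →
    b3 (b * a) - b3 b = b3 b := by decide

theorem g3_mul_mod (a b : ℕ) : g3 (b * a) = g3 ((b % 8) * (a % 8)) := by
  unfold g3
  rw [Nat.mul_mod b a 8]

theorem b3_mul_mod (a b : ℕ) : b3 (b * a) = b3 ((b % 8) * (a % 8)) := by
  unfold b3
  rw [Nat.mul_mod b a 8]

theorem g3_mod' (b : ℕ) : g3 b = g3 (b % 8) := by
  unfold g3
  rw [Nat.mod_mod]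

theorem b3_mod' (b : ℕ) : b3 b = b3 (b % 8) := by
  unfold b3
  rw [Nat.mod_mod]

theorem asum3 (S : Finset ℕ) (hS : ∀ q ∈ S, q % 8 = 3 ∨ q % 8 = 5) :
    ∀ k : ℕ, k % 2 = 1 → asum 3 g3 S k = if S = ∅ then g3 k else b3 k := by
  induction S using Finset.induction_on with
  | empty =>
    intro k _
    rw [asum_empty, if_pos rfl]
  | insert q S hq ih =>
    intro k hk
    have hq8 := hS q (Finset.mem_insert_self q S)
    have ih' := ih (fun x hx => hS x (Finset.mem_insert_of_mem hx))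
    have hkq : (k * q) % 2 = 1 := by
      rw [Nat.mul_mod, hk]
      have : q % 2 = 1 := by omega
      rw [this]
    rw [asum_insert 3 g3 S q hq k, ih' k hk, ih' (k * q) hkq,
      if_neg (Finset.insert_ne_empty q S)]
    have ha : q % 8 < 8 := Nat.mod_lt _ (by norm_num)
    have hb : k % 8 < 8 := Nat.mod_lt _ (by norm_num)
    have hb2 : (k % 8) % 2 = 1 := by omega
    split_ifs with h
    · have := step3a (q % 8) ha (k % 8) hb hq8 hb2
      rw [g3_mul_mod, g3_mod' k, b3_mod' k]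
      exact this
    · have := step3b (q % 8) ha (k % 8) hb hq8 hb2
      rw [b3_mul_mod, b3_mod' k]
      exact this

theorem prod_odd (U : Finset ℕ) (hU : ∀ q ∈ U, q % 2 = 1) : (∏ q ∈ U, q) % 2 = 1 := by
  induction U using Finset.induction_on with
  | empty => simp
  | insert q U hq ih =>
    rw [Finset.prod_insert hq, Nat.mul_mod, hU q (Finset.mem_insert_self q U),
      ih (fun x hx => hU x (Finset.mem_insert_of_mem hx))]

/-- SUM3: the alternating sum for the step `C`. -/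
theorem sum3 (h : S_PR3) : S_SUM3 := by
  intro S hne hS
  have hodd : ∀ q ∈ S, q % 2 = 1 := fun q hq => by
    have := (hS q hq).2
    omega
  have key : ∑ U ∈ S.powerset, (-1 : ZMod 3) ^ (S.card - U.card) *
      prw 3 wt3 ((7 * ∏ q ∈ U, q : ℕ) : ℤ) = asum 3 g3 S 1 := by
    unfold asum
    refine Finset.sum_congr rfl fun U hU => ?_
    have hU' := Finset.mem_powerset.mp hU
    have ho := prod_odd U (fun q hq => hodd q (hU' hq))
    congr 1
    rw [one_mul]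
    have hcast : ((7 * ∏ q ∈ U, q : ℕ) : ℤ) = 7 * ((∏ q ∈ U, q : ℕ) : ℤ) := by
      rw [Nat.cast_mul]
      rfl
    rw [hcast]
    generalize (∏ q ∈ U, q) = m at ho ⊢
    have hm : Odd (m : ℤ) := by
      rw [Int.odd_iff]
      omega
    rw [h (m : ℤ) hm]
    unfold g3
    have e : ((m : ℤ) % 8 = 1 ∨ (m : ℤ) % 8 = 7) ↔ (m % 8 = 1 ∨ m % 8 = 7) := by omega
    simp only [e]
  rw [key, asum3 S (fun q hq => (hS q hq).2) 1 (by norm_num),
    if_neg (Finset.nonempty_iff_ne_empty.mp hne)]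
  decide

/-! ### SUM2 -/

/-- the values of `prw 2 wt2 (2 m)` -/
def f2 (n : ℕ) : ZMod 2 := if n % 7 = 2 ∨ n % 7 = 5 then 0 else 1

theorem f2_mod (n : ℕ) : f2 n = f2 (n % 7) := by
  unfold f2
  rw [Nat.mod_mod]

theorem step2F : ∀ a t : Fin 7, ((a : ℕ) = 2 ∨ (a : ℕ) = 3 ∨ (a : ℕ) = 4 ∨ (a : ℕ) = 5) →
    (t : ℕ) ≠ 0 → ∃ s : Fin 7, (s : ℕ) ≠ 0 ∧ ∀ b : Fin 7, (b : ℕ) ≠ 0 →
      f2 ((b : ℕ) * a * t) - f2 ((b : ℕ) * t) = f2 ((b : ℕ) * s) := by decide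

theorem step2 (a : ℕ) (ha : a < 7) (t : ℕ) (ht : t < 7) (h : a = 2 ∨ a = 3 ∨ a = 4 ∨ a = 5)
    (ht0 : t ≠ 0) :
    ∃ s < 7, s ≠ 0 ∧ ∀ b < 7, b ≠ 0 → f2 (b * a * t) - f2 (b * t) = f2 (b * s) := by
  obtain ⟨s, hs0, hs⟩ := step2F ⟨a, ha⟩ ⟨t, ht⟩ h ht0
  exact ⟨s, s.2, hs0, fun b hb hb0 => hs ⟨b, hb⟩ hb0⟩

theorem asum2 (S : Finset ℕ) (hS : ∀ q ∈ S, q % 7 = 2 ∨ q % 7 = 3 ∨ q % 7 = 4 ∨ q % 7 = 5) :
    ∃ t < 7, t ≠ 0 ∧ ∀ k : ℕ, k % 7 ≠ 0 → asum 2 f2 S k = f2 (k * t) := by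
  induction S using Finset.induction_on with
  | empty =>
    refine ⟨1, by norm_num, by norm_num, fun k _ => ?_⟩
    rw [asum_empty, mul_one]
  | insert q S hq ih =>
    obtain ⟨t, ht7, ht0, ht⟩ := ih (fun x hx => hS x (Finset.mem_insert_of_mem hx))
    have hq7 := hS q (Finset.mem_insert_self q S)
    obtain ⟨s, hs7, hs0, hs⟩ := step2 (q % 7) (Nat.mod_lt _ (by norm_num)) t ht7 hq7 ht0
    refine ⟨s, hs7, hs0, fun k hk => ?_⟩
    have hkq : (k * q) % 7 ≠ 0 := by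
      intro h0
      have h7 : (7 : ℕ) ∣ k * q := Nat.dvd_of_mod_eq_zero h0
      rcases (Nat.Prime.dvd_mul (by norm_num)).mp h7 with h | h
      · exact hk (Nat.mod_eq_zero_of_dvd h)
      · have := Nat.mod_eq_zero_of_dvd h
        omega
    rw [asum_insert 2 f2 S q hq k, ht k hk, ht (k * q) hkq]
    have := hs (k % 7) (Nat.mod_lt _ (by norm_num)) hk
    have e1 : f2 (k * q * t) = f2 (k % 7 * (q % 7) * t) := by
      unfold f2
      have : k * q * t % 7 = k % 7 * (q % 7) * t % 7 := by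
        conv_lhs => rw [Nat.mul_mod, Nat.mul_mod k q]
        conv_rhs => rw [Nat.mul_mod]
      rw [this]
    have e2 : ∀ r, f2 (k * r) = f2 (k % 7 * r) := by
      intro r
      unfold f2
      have : k * r % 7 = k % 7 * r % 7 := by
        rw [Nat.mul_mod, Nat.mul_mod (k % 7) r, Nat.mod_mod]
      rw [this]
    rw [e1, e2 t, e2 s]
    exact this

theorem prod_seven (U : Finset ℕ) (hU : ∀ q ∈ U, q % 7 ≠ 0) : (∏ q ∈ U, q) % 7 ≠ 0 := by
  induction U using Finset.induction_on with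
  | empty => simp
  | insert q U hq ih =>
    rw [Finset.prod_insert hq]
    intro h0
    have h7 : (7 : ℕ) ∣ q * ∏ x ∈ U, x := Nat.dvd_of_mod_eq_zero h0
    rcases (Nat.Prime.dvd_mul (by norm_num)).mp h7 with h | h
    · exact hU q (Finset.mem_insert_self q U) (Nat.mod_eq_zero_of_dvd h)
    · exact ih (fun x hx => hU x (Finset.mem_insert_of_mem hx)) (Nat.mod_eq_zero_of_dvd h)

theorem key2 (h : S_PR2) (S : Finset ℕ) (hS : ∀ q ∈ S, q % 7 ≠ 0) :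
    ∑ U ∈ S.powerset, (-1 : ZMod 2) ^ (S.card - U.card) *
      prw 2 wt2 ((2 * ∏ q ∈ U, q : ℕ) : ℤ) = asum 2 f2 S 1 := by
  unfold asum
  refine Finset.sum_congr rfl fun U hU => ?_
  have hU' := Finset.mem_powerset.mp hU
  have ho := prod_seven U (fun q hq => hS q (hU' hq))
  congr 1
  rw [one_mul]
  have hcast : ((2 * ∏ q ∈ U, q : ℕ) : ℤ) = 2 * ((∏ q ∈ U, q : ℕ) : ℤ) := by
    rw [Nat.cast_mul]
    rfl
  rw [hcast]
  generalize (∏ q ∈ U, q) = m at ho ⊢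
  have hm : ¬ (7 : ℤ) ∣ (m : ℤ) := by omega
  rw [h (m : ℤ) hm]
  unfold f2
  have e : ((m : ℤ) % 7 = 2 ∨ (m : ℤ) % 7 = 5) ↔ (m % 7 = 2 ∨ m % 7 = 5) := by omega
  simp only [e]

theorem fin2F : ∀ a t : Fin 7, ((a : ℕ) = 2 ∨ (a : ℕ) = 3 ∨ (a : ℕ) = 4 ∨ (a : ℕ) = 5) →
    (t : ℕ) ≠ 0 → (f2 t ≠ 0 ∨ f2 ((a : ℕ) * t) - f2 t ≠ 0) := by decide

theorem fin2 (a : ℕ) (ha : a < 7) (t : ℕ) (ht : t < 7) (h : a = 2 ∨ a = 3 ∨ a = 4 ∨ a = 5)
    (ht0 : t ≠ 0) : f2 t ≠ 0 ∨ f2 (a * t) - f2 t ≠ 0 :=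
  fin2F ⟨a, ha⟩ ⟨t, ht⟩ h ht0

/-- SUM2: the alternating sum for the step `Q`, for one of `S` and `S ∪ {q₀}`. -/
theorem sum2 (h : S_PR2) : S_SUM2 := by
  intro S q₀ hq₀ hS
  have h7 : ∀ q ∈ insert q₀ S, q % 7 = 2 ∨ q % 7 = 3 ∨ q % 7 = 4 ∨ q % 7 = 5 :=
    fun q hq => (hS q hq).2.2
  have h7' : ∀ q ∈ insert q₀ S, q % 7 ≠ 0 := fun q hq => by
    have := h7 q hq
    omega
  rw [key2 h S (fun q hq => h7' q (Finset.mem_insert_of_mem hq)), key2 h (insert q₀ S) h7',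
    asum_insert 2 f2 S q₀ hq₀ 1, one_mul]
  obtain ⟨t, ht7, ht0, ht⟩ := asum2 S (fun q hq => h7 q (Finset.mem_insert_of_mem hq))
  have hq := h7 q₀ (Finset.mem_insert_self q₀ S)
  rw [ht 1 (by norm_num), ht q₀ (by omega), one_mul]
  have e : f2 (q₀ * t) = f2 (q₀ % 7 * t) := by
    unfold f2
    have : q₀ * t % 7 = q₀ % 7 * t % 7 := by
      rw [Nat.mul_mod, Nat.mul_mod (q₀ % 7) t, Nat.mod_mod]
    rw [this]
  rw [e]
  exact fin2 (q₀ % 7) (Nat.mod_lt _ (by norm_num)) t ht7 hq ht0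

end Pool.Agent.H177.TW
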